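import Pool.Agent.Helper14.TT.StC
import Pool.Agent.Helper14.CV.StB

/-!
# Module Bast of project TT (MP_1d384c_nt): level 4
-/

set_option autoImplicit false

namespace Pool.Agent.Helper86.TT

open Pool.Agent.Helper14.TT Pool.Agent.Helper14.CV
open Pool.Agent.Helper76.TX (RootNum eX evX NewSymS NSS BalES BalOS antiES antiOS antiFS Sg evX_congr)

/-- Descent: a homogeneous potential invariant under the two parabolic generators which vanishes
at the three cusps vanishes. -/
private theorem descent (K : ℤ → ℤ → ℂ) (hH : Homog K)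
    (h1 : ∀ p q : ℤ, (p ≠ 0 ∨ q ≠ 0) → K (p + q) q = K p q)
    (h2 : ∀ p q : ℤ, (p ≠ 0 ∨ q ≠ 0) → K p (4 * p + q) = K p q)
    (k1 : K 1 0 = 0) (k2 : K 0 1 = 0) (k3 : K 1 2 = 0) :
    ∀ N : ℕ, ∀ p q : ℤ, p.natAbs + q.natAbs ≤ N → (p ≠ 0 ∨ q ≠ 0) → K p q = 0 := by
  have hdown : ∀ p q : ℤ, q ≠ 0 → K (p - q) q = K p q := by
    intro p q hq
    have := h1 (p - q) q (Or.inr hq)
    rw [sub_add_cancel] at this
    exact this.symm
  have hdown2 : ∀ p q : ℤ, p ≠ 0 → K p (q - 4 * p) = K p q := by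
    intro p q hp
    have := h2 p (q - 4 * p) (Or.inl hp)
    rw [add_sub_cancel] at this
    exact this.symm
  intro N
  induction N with
  | zero =>
    intro p q h hpq
    exfalso
    rcases hpq with hp | hq <;> omega
  | succ N ih =>
    intro p q h hpq
    by_cases hp : p = 0
    · subst hp
      have hq : q ≠ 0 := by simpa using hpq
      have := hH q 0 1 hq (Or.inr one_ne_zero)
      rw [mul_zero, mul_one] at this
      rw [this, k2]
    by_cases hq : q = 0
    · subst hq
      have := hH p 1 0 hp (Or.inl one_ne_zero)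
      rw [mul_zero, mul_one] at this
      rw [this, k1]
    rcases lt_trichotomy (q.natAbs) (2 * p.natAbs) with hlt | heq | hgt
    · -- reduce p
      by_cases hs : (0 < p ∧ 0 < q) ∨ (p < 0 ∧ q < 0)
      · rw [← hdown p q hq]
        exact ih _ _ (by omega) (Or.inr hq)
      · rw [← h1 p q hpq]
        exact ih _ _ (by omega) (Or.inr hq)
    · by_cases hs : q = 2 * p
      · have := hH p 1 2 hp (Or.inl one_ne_zero)
        rw [mul_one, mul_comm p 2, ← hs] at this
        rw [this, k3]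
      · have hs' : q = p * (-2) := by omega
        have e1 := hH p 1 (-2) hp (Or.inl one_ne_zero)
        rw [mul_one, ← hs'] at e1
        have e2 := h1 1 (-2) (Or.inl one_ne_zero)
        have e3 := hH (-1) 1 2 (by norm_num) (Or.inl one_ne_zero)
        norm_num at e2 e3
        rw [e1, ← e2, e3, k3]
    · -- reduce q
      by_cases hs : (0 < p ∧ 0 < q) ∨ (p < 0 ∧ q < 0)
      · rw [← hdown2 p q hp]
        exact ih _ _ (by omega) (Or.inl hp)
      · rw [← h2 p q hpq]
        exact ih _ _ (by omega) (Or.inl hp)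

private theorem zero_of_neg {x : ℂ} (h : x = -x) : x = 0 := by
  have h1 : (2 : ℂ) * x = 0 := by linear_combination h
  exact (mul_eq_zero.mp h1).resolve_left two_ne_zero

private theorem const_of (K : ℤ → ℤ → ℂ) (hS : Sym 0 2 K)
    (hR : ∀ p q : ℤ, K (-p) q = -K p q) : EqC K 0 := by
  have h1 : ∀ p q : ℤ, (p ≠ 0 ∨ q ≠ 0) → K (p + q) q = K p q := by
    intro p q hpq
    obtain ⟨c, hc⟩ := hS.2 1 1 0 1 (by norm_num) (by norm_num) (by norm_num)
    have e1 := hc 1 0 (Or.inl one_ne_zero)
    have e2 := hc p q hpq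
    simp only [act] at e1 e2
    norm_num at e1 e2
    rw [e2, e1, add_zero]
  have h2 : ∀ p q : ℤ, (p ≠ 0 ∨ q ≠ 0) → K p (4 * p + q) = K p q := by
    intro p q hpq
    obtain ⟨c, hc⟩ := hS.2 1 0 4 1 (by norm_num) (by norm_num) (by norm_num)
    have e1 := hc 0 1 (Or.inr one_ne_zero)
    have e2 := hc p q hpq
    simp only [act] at e1 e2
    norm_num at e1 e2
    rw [e2, e1, add_zero]
  have k1 : K 1 0 = 0 := by
    have e1 := hR 1 0
    have e2 := hS.1 (-1) 1 0 (by norm_num) (Or.inl one_ne_zero)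
    norm_num at e1 e2
    exact zero_of_neg (by rw [← e1, e2])
  have k2 : K 0 1 = 0 := by
    have e1 := hR 0 1
    rw [neg_zero] at e1
    exact zero_of_neg e1
  have k3 : K 1 2 = 0 := by
    have e1 := hR 1 2
    have e2 := h1 (-1) 2 (Or.inr two_ne_zero)
    norm_num at e1 e2
    exact zero_of_neg (by rw [← e1, ← e2])
  refine ⟨0, fun p q hpq => ?_⟩
  rw [descent K hS.1 h1 h2 k1 k2 k3 _ p q le_rfl hpq]
  simp

/-- Module Bast. -/
theorem hBast (hSgn : Sgn) (_hFar : StFar) (hNrm : StNrm) : Bast := by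
  intro l G hl hl4 hG
  have hs := (hSgn l 2 G hl hl4 le_rfl hG).2
  have hn := hNrm 2 G le_rfl hG
  set H : ℤ → ℤ → ℂ := act (-1) 0 0 1 G with hHdef
  have hHS : Sym 0 2 (G + -H) := hG.add (Sym.neg hn.2.2.2)
  have hR : ∀ p q : ℤ, (G + -H) (-p) q = -(G + -H) p q := by
    intro p q
    simp only [hHdef, Pi.add_apply, Pi.neg_apply, act]
    have e1 : (-1 * -p + 0 * q : ℤ) = p := by ring
    have e2 : (0 * -p + 1 * q : ℤ) = q := by ring
    have e3 : (-1 * p + 0 * q : ℤ) = -p := by ring
    have e4 : (0 * p + 1 * q : ℤ) = q := by ring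
    rw [e1, e2, e3, e4]
    ring
  have h0 := const_of (G + -H) hHS hR
  have h1 : evX l (G + -H) = 0 := by
    rw [evX_congr hl.ne_zero h0, map_zero]
  rw [map_add, map_neg, hs, neg_neg] at h1
  funext i j
  have h2 := congrFun (congrFun h1 i) j
  simp only [Pi.add_apply, Pi.zero_apply] at h2
  have h3 : (2 : ℂ) * evX l G i j = 0 := by linear_combination h2
  exact (mul_eq_zero.mp h3).resolve_left two_ne_zero

end Pool.Agent.Helper86.TT
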