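import Pool.Agent.Helper14.TT.StF
import Pool.Agent.Helper7.CV.M_A1

/-! # Project TT, module P4W: Fricke relation of the potential, with the sign `w` -/

set_option autoImplicit false

open Filter Topology

namespace Pool.Agent.Helper86.TT

open Pool.Agent.Helper14.CV Pool.Agent.Helper14.TT
open Pool.Agent.Helper76.TX (RootNum Sg)

/-- the point `y i` -/
private noncomputable def wy (y : ℝ) : ℂ := ((0 : ℝ) : ℂ) + y * Complex.I

private theorem wy_re (y : ℝ) : (wy y).re = 0 := by simp [wy]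

private theorem wy_im (y : ℝ) : (wy y).im = y := by simp [wy]

private theorem lin_re (c d : ℤ) (y : ℝ) : ((c : ℂ) * wy y + d).re = d := by
  rw [Complex.add_re, Complex.mul_re, wy_re, wy_im, Complex.intCast_re, Complex.intCast_im,
    Complex.intCast_re]
  ring

private theorem lin_im (c d : ℤ) (y : ℝ) : ((c : ℂ) * wy y + d).im = c * y := by
  rw [Complex.add_im, Complex.mul_im, wy_re, wy_im, Complex.intCast_re, Complex.intCast_im,
    Complex.intCast_im]
  ring

private theorem lin_ne {c d : ℤ} {y : ℝ} (hy : 0 < y) (h : c ≠ 0 ∨ d ≠ 0) :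
    (c : ℂ) * wy y + d ≠ 0 := by
  intro h0
  have h1 := congrArg Complex.re h0
  have h2 := congrArg Complex.im h0
  rw [lin_re, Complex.zero_re] at h1
  rw [lin_im, Complex.zero_im] at h2
  have h3 : (c : ℝ) = 0 := by
    rcases mul_eq_zero.1 h2 with h | h
    · exact h
    · exact absurd h hy.ne'
  rcases h with h | h
  · exact h (by exact_mod_cast h3)
  · exact h (by exact_mod_cast h1)

private theorem ne_of_det {a b c d : ℤ} (h : 0 < a * d - b * c) :
    (a ≠ 0 ∨ b ≠ 0) ∧ (c ≠ 0 ∨ d ≠ 0) := by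
  constructor
  · by_contra hc
    push Not at hc
    rw [hc.1, hc.2] at h
    simp at h
  · by_contra hc
    push Not at hc
    rw [hc.1, hc.2] at h
    simp at h

private theorem frac_im {a b c d : ℤ} (h : 0 < a * d - b * c) {y : ℝ} (hy : 0 < y) :
    0 < (((a : ℂ) * wy y + b) / ((c : ℂ) * wy y + d)).im := by
  have h1 := lin_ne hy (ne_of_det h).2
  have h2 : 0 < Complex.normSq ((c : ℂ) * wy y + d) := Complex.normSq_pos.2 h1
  rw [Complex.div_im, lin_re, lin_im, lin_re, lin_im, ← sub_div]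
  refine div_pos ?_ h2
  have h3 : (0 : ℝ) < a * d - b * c := by exact_mod_cast h
  have h4 : (a : ℝ) * y * d - b * (c * y) = (a * d - b * c) * y := by ring
  rw [h4]
  exact mul_pos h3 hy

private theorem pot_lim {N : ℕ} {f : CuspForm (G0 N) 2} {G : ℤ → ℤ → ℂ} (hG : IsPot f G)
    (a b c d : ℤ) (h : 0 < a * d - b * c) :
    Tendsto (fun y : ℝ => Fp f (((a : ℂ) * wy y + b) / ((c : ℂ) * wy y + d))) atTop
      (𝓝 (G a c)) := hG a b c d h 0

/-- a matrix with a given first column -/
private theorem exists_col (p q : ℤ) (h : p ≠ 0 ∨ q ≠ 0) : ∃ b d : ℤ, 0 < p * d - b * q := by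
  refine ⟨-q, p, ?_⟩
  rcases h with h | h
  · have : 0 < p ^ 2 := by positivity
    nlinarith [sq_nonneg q]
  · have : 0 < q ^ 2 := by positivity
    nlinarith [sq_nonneg p]

private theorem cst (D : ℂ → ℂ) (h : ∀ z : ℂ, 0 < z.im → HasDerivAt D 0 z) :
    ∃ k : ℂ, ∀ z : ℂ, 0 < z.im → D z = k := by
  have hs : IsOpen {z : ℂ | 0 < z.im} := isOpen_lt continuous_const Complex.continuous_im
  have hp : IsPreconnected {z : ℂ | 0 < z.im} := (convex_halfSpace_im_gt 0).isPreconnected
  obtain ⟨k, hk⟩ := hs.exists_is_const_of_deriv_eq_zero hp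
    (fun z hz => (h z hz).differentiableAt.differentiableWithinAt) (fun z hz => (h z hz).deriv)
  exact ⟨k, fun z hz => hk z hz⟩

private theorem comp_der (F g : ℂ → ℂ) (F' g' z : ℂ) (e2 : HasDerivAt F F' (g z))
    (e1 : HasDerivAt g g' z) : HasDerivAt (fun z => F (g z)) (F' * g') z := e2.comp z e1

/-- integrated Fricke relation -/
private theorem intW (w : ℤ) (N : ℕ) (hN : NeZero N) (f : CuspForm (G0 N) 2)
    (hf : ∀ z : ℂ, 0 < z.im → fz f (-1 / (N * z)) = -((w : ℂ) * (N * z ^ 2 * fz f z))) :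
    ∃ k : ℂ, ∀ z : ℂ, 0 < z.im → Fp f (-1 / (N * z)) = -((w : ℂ) * Fp f z) + k := by
  have h1 := Pool.Agent.Helper7.CV.hA1
  have hN0 : (N : ℂ) ≠ 0 := by exact_mod_cast hN.out
  have hNp : 0 < (N : ℝ) := by exact_mod_cast Nat.pos_of_ne_zero hN.out
  have key := cst (fun z => Fp f (-1 / (N * z)) + (w : ℂ) * Fp f z) (by
    intro z hz
    have z0 : z ≠ 0 := by
      rintro rfl
      simp at hz
    have k2 : 0 < (-1 / (N * z) : ℂ).im := by
      have e0 : 0 < ((N : ℂ) * z).im := by
        have : ((N : ℂ) * z).im = N * z.im := by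
          have h := Complex.im_ofReal_mul (N : ℝ) z
          push_cast at h
          exact h
        rw [this]
        positivity
      have e := UpperHalfPlane.im_inv_neg_coe_pos ⟨(N : ℂ) * z, e0⟩
      have e' : (-1 / (N * z) : ℂ) = (-((N : ℂ) * z))⁻¹ := by
        rw [inv_neg, neg_div, one_div]
      rw [e']
      exact e
    have e1 : HasDerivAt (fun z : ℂ => -1 / (N * z)) (1 / (N * z ^ 2)) z := by
      have e0 : HasDerivAt (fun z : ℂ => (N : ℂ) * z) N z := by
        simpa using (hasDerivAt_id z).const_mul (N : ℂ)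
      have e := (hasDerivAt_const z (-1 : ℂ)).fun_div e0 (mul_ne_zero hN0 z0)
      refine e.congr_deriv ?_
      field_simp
      ring
    have e2 := (h1 N hN f _ k2).2.2
    have e4 : HasDerivAt (fun z => Fp f (-1 / (N * z)) + (w : ℂ) * Fp f z) _ z :=
      (comp_der (Fp f) (fun z => -1 / (N * z)) _ _ z e2 e1).fun_add
        ((h1 N hN f z hz).2.2.const_mul (w : ℂ))
    refine e4.congr_deriv ?_
    rw [hf z hz]
    field_simp
    ring)
  obtain ⟨k, hk⟩ := key
  exact ⟨k, fun z hz => by linear_combination hk z hz⟩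

theorem hP4W : P4W := by
  intro w n f G _ hG hW
  obtain ⟨k, hk⟩ := intW w (2 ^ n) inferInstance f hW
  refine ⟨k, fun p q hpq => ?_⟩
  obtain ⟨b, d, hdet⟩ := exists_col p q hpq
  have d1 : 0 < (0 * p + -1 * q) * ((2 ^ n : ℤ) * b) - (-d) * ((2 ^ n : ℤ) * p + 0 * q) := by
    have : (0 * p + -1 * q) * ((2 ^ n : ℤ) * b) - (-d) * ((2 ^ n : ℤ) * p + 0 * q) =
      2 ^ n * (p * d - b * q) := by ring
    rw [this]; exact mul_pos (by positivity) hdet
  have t0 := ((pot_lim hG p b q d hdet).const_mul (w : ℂ)).neg.add_const k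
  have t1 := pot_lim hG _ _ _ _ d1
  have e0 : (-(w • G)) p q = -((w : ℂ) * G p q) := by
    rw [Pi.neg_apply, Pi.neg_apply, Pi.smul_apply, Pi.smul_apply, zsmul_eq_mul]
  rw [e0]
  refine tendsto_nhds_unique (t1.congr' ?_) t0
  filter_upwards [eventually_gt_atTop 0] with y hy
  have hden := lin_ne hy (ne_of_det hdet).2
  have hnum := lin_ne hy (ne_of_det hdet).1
  have him := frac_im hdet hy
  rw [← hk _ him]
  congr 1
  have h2n : (2 : ℂ) ^ n ≠ 0 := pow_ne_zero _ two_ne_zero
  push_cast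
  have e : ((2 : ℂ) ^ n * p + 0 * q) * wy y + 2 ^ n * b = 2 ^ n * ((p : ℂ) * wy y + b) := by ring
  rw [e]
  field_simp
  ring

end Pool.Agent.Helper86.TT
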